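import Pool.Agent.helper21.UB.Spec

/-!
# Project ub: (MP_6cfeb2_co), module CLN: the class number is at most the number of representations
-/

set_option autoImplicit false

open Quaternion

namespace Pool.Agent.helper21.UB

theorem CLN_ww {k : ℕ} {v : Fin 3 → ℤ} (hv : ∑ i, v i ^ 2 = (k : ℤ)) :
    pq v * pq v = -(k : ℍ[ℚ]) := by
  rw [Fin.sum_univ_three] at hv
  have hv' : ((v 0 : ℚ)) ^ 2 + (v 1 : ℚ) ^ 2 + (v 2 : ℚ) ^ 2 = k := by exact_mod_cast hv
  apply Quaternion.ext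
  · simp [pq]
    linarith
  · simp [pq]
    ring
  · simp [pq]
    ring
  · simp [pq]
    ring

theorem CLN_norm (v : Fin 3 → ℤ) : normSq (pq v) = ((∑ i, v i ^ 2 : ℤ) : ℚ) := by
  rw [Quaternion.normSq_def', Fin.sum_univ_three]
  simp [pq]

theorem CLN_pq_mem (v : Fin 3 → ℤ) : pq v ∈ Hz :=
  Or.inl ⟨0, v 0, v 1, v 2, by simp [pq], rfl, rfl, rfl⟩

/-- `φ (a + b s) = a + b w` -/
theorem CLN_phi {K : Type} [Field K] [NumberField K] (φ : K →+* ℍ[ℚ]) (s : K) (a b : ℚ) :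
    φ (algebraMap ℚ K a + algebraMap ℚ K b * s) = (a : ℍ[ℚ]) + (b : ℍ[ℚ]) * φ s := by
  have h : ∀ a : ℚ, φ (algebraMap ℚ K a) = (a : ℍ[ℚ]) := by
    intro a
    rw [eq_ratCast (algebraMap ℚ K) a, map_ratCast]
  rw [map_add, map_mul, h, h]

section

variable {K : Type} [Field K] [NumberField K] {φ : K →+* ℍ[ℚ]}
  {I : Ideal (NumberField.RingOfIntegers K)}

theorem CLN_sub (hHUR : HUR_stmt) (hint : ∀ β : K, φ β ∈ Hz ↔ IsIntegral ℤ β) :
    ∀ m ∈ MI φ I, m ∈ Hz := by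
  obtain ⟨h0, -, hadd, hneg, hmul, -, -⟩ := hHUR
  intro m hm
  unfold MI at hm
  induction hm using AddSubgroup.closure_induction with
  | mem x hx =>
    obtain ⟨o, ho, a, -, rfl⟩ := hx
    exact hmul o ho _ ((hint _).mpr (NumberField.RingOfIntegers.isIntegral_coe a))
  | zero => exact h0
  | add x y _ _ hx hy => exact hadd x hx y hy
  | neg x _ hx => exact hneg x hx

theorem CLN_left (hHUR : HUR_stmt) : ∀ o ∈ Hz, ∀ m ∈ MI φ I, o * m ∈ MI φ I := by
  obtain ⟨-, -, -, -, hmul, -, -⟩ := hHUR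
  intro o ho m hm
  unfold MI at hm
  induction hm using AddSubgroup.closure_induction with
  | mem x hx =>
    obtain ⟨o', ho', a, ha, rfl⟩ := hx
    refine AddSubgroup.subset_closure ⟨o * o', hmul o ho o' ho', a, ha, ?_⟩
    rw [mul_assoc]
  | zero => rw [mul_zero]; exact (MI φ I).zero_mem
  | add x y _ _ hx hy => rw [mul_add]; exact (MI φ I).add_mem hx hy
  | neg x _ hx => rw [mul_neg]; exact (MI φ I).neg_mem hx

theorem CLN_right (r : NumberField.RingOfIntegers K) : ∀ m ∈ MI φ I, m * φ (r : K) ∈ MI φ I := by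
  intro m hm
  unfold MI at hm
  induction hm using AddSubgroup.closure_induction with
  | mem x hx =>
    obtain ⟨o', ho', a, ha, rfl⟩ := hx
    refine AddSubgroup.subset_closure ⟨o', ho', a * r, I.mul_mem_right r ha, ?_⟩
    rw [mul_assoc, ← map_mul]
    rfl
  | zero => rw [zero_mul]; exact (MI φ I).zero_mem
  | add x y _ _ hx hy => rw [add_mul]; exact (MI φ I).add_mem hx hy
  | neg x _ hx => rw [neg_mul]; exact (MI φ I).neg_mem hx

/-- the left ideal of `(q) I` -/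
theorem CLN_span (hHUR : HUR_stmt) {x : ℍ[ℚ]} (hx : x ∈ MI φ I)
    (hgen : ∀ y ∈ MI φ I, ∃ o ∈ Hz, y = o * x) (q : NumberField.RingOfIntegers K) (z : ℍ[ℚ]) :
    z ∈ MI φ (Ideal.span {q} * I) ↔ ∃ o ∈ Hz, z = o * (x * φ (q : K)) := by
  have hHUR' := hHUR
  obtain ⟨h0, -, hadd, hneg, hmul, -, -⟩ := hHUR'
  constructor
  · intro hz
    unfold MI at hz
    induction hz using AddSubgroup.closure_induction with
    | mem z hz =>
      obtain ⟨o, ho, a, ha, rfl⟩ := hz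
      obtain ⟨i, hi, rfl⟩ := Ideal.mem_span_singleton_mul.mp ha
      have h1 : o * φ (i : K) ∈ MI φ I := AddSubgroup.subset_closure ⟨o, ho, i, hi, rfl⟩
      obtain ⟨o', ho', h2⟩ := hgen _ h1
      refine ⟨o', ho', ?_⟩
      rw [← mul_assoc, ← h2, mul_assoc, ← map_mul, mul_comm (i : K)]
      rfl
    | zero => exact ⟨0, h0, by rw [zero_mul]⟩
    | add x y _ _ hx hy =>
      obtain ⟨o1, ho1, rfl⟩ := hx
      obtain ⟨o2, ho2, rfl⟩ := hy
      exact ⟨o1 + o2, hadd o1 ho1 o2 ho2, by rw [add_mul]⟩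
    | neg x _ hx =>
      obtain ⟨o1, ho1, rfl⟩ := hx
      exact ⟨-o1, hneg o1 ho1, by rw [neg_mul]⟩
  · rintro ⟨o, ho, rfl⟩
    refine CLN_left hHUR o ho _ ?_
    have key : ∀ m ∈ MI φ I, m * φ (q : K) ∈ MI φ (Ideal.span {q} * I) := by
      intro m hm
      unfold MI at hm
      induction hm using AddSubgroup.closure_induction with
      | mem x hx =>
        obtain ⟨o', ho', a, ha, rfl⟩ := hx
        refine AddSubgroup.subset_closure ⟨o', ho', q * a,
          Ideal.mul_mem_mul (Ideal.mem_span_singleton_self q) ha, ?_⟩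
        rw [mul_assoc, ← map_mul, mul_comm (a : K)]
        rfl
      | zero => rw [zero_mul]; exact (MI φ _).zero_mem
      | add x y _ _ hx hy => rw [add_mul]; exact (MI φ _).add_mem hx hy
      | neg x _ hx => rw [neg_mul]; exact (MI φ _).neg_mem hx
    exact key x hx

/-- the generator and the conjugate of `w` -/
theorem CLN_gen (hHUR : HUR_stmt) (hPRI : PRI_stmt) (hint : ∀ β : K, φ β ∈ Hz ↔ IsIntegral ℤ β)
    (hI : I ≠ ⊥) {k : ℕ} {v₀ : Fin 3 → ℤ} (hv : ∑ i, v₀ i ^ 2 = (k : ℤ)) {s : K}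
    (hφs : φ s = pq v₀) : ∃ x ∈ MI φ I, x ≠ 0 ∧ (∀ y ∈ MI φ I, ∃ o ∈ Hz, y = o * x) ∧
      ∃ v : Fin 3 → ℤ, ∑ i, v i ^ 2 = (k : ℤ) ∧ x * pq v₀ * x⁻¹ = pq v := by
  have hne : ∃ m ∈ MI φ I, m ≠ 0 := by
    obtain ⟨a, ha, ha0⟩ := Submodule.exists_mem_ne_zero_of_ne_bot hI
    refine ⟨1 * φ (a : K), AddSubgroup.subset_closure ⟨1, hHUR.2.1, a, ha, rfl⟩, ?_⟩
    rw [one_mul, map_ne_zero φ]
    exact_mod_cast ha0
  obtain ⟨x, hx, hx0, hgen⟩ := hPRI (MI φ I) (CLN_sub hHUR hint) (CLN_left hHUR) hne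
  refine ⟨x, hx, hx0, hgen, ?_⟩
  have hsint : IsIntegral ℤ s := (hint s).mp (by rw [hφs]; exact CLN_pq_mem v₀)
  have h1 : x * pq v₀ ∈ MI φ I := by
    have := CLN_right (φ := φ) (I := I) (⟨s, hsint⟩ : NumberField.RingOfIntegers K) x hx
    rw [← hφs]
    exact this
  obtain ⟨o, ho, ho1⟩ := hgen _ h1
  have h2 : x * pq v₀ * x⁻¹ = o := by
    rw [ho1, mul_assoc, mul_inv_cancel₀ hx0, mul_one]
  have hre : (x * pq v₀ * x⁻¹).re = 0 := by
    have hc : ∀ a b : ℍ[ℚ], (a * b).re = (b * a).re := by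
      intro a b
      rw [Quaternion.re_mul, Quaternion.re_mul]
      ring
    rw [hc, ← mul_assoc, inv_mul_cancel₀ hx0, one_mul]
    rfl
  obtain ⟨v, hv'⟩ := hHUR.2.2.2.2.2.2 o ho (by rw [← h2]; exact hre)
  refine ⟨v, ?_, by rw [h2, hv']⟩
  have h3 : normSq (x * pq v₀ * x⁻¹) = normSq (pq v₀) := by
    rw [map_mul, map_mul, map_inv₀, mul_comm (normSq x), mul_assoc,
      mul_inv_cancel₀ ((map_ne_zero (normSq (R := ℚ))).mpr hx0), mul_one]
  rw [h2, hv', CLN_norm, CLN_norm, hv] at h3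
  exact_mod_cast h3

end

theorem CLN (hHUR : HUR_stmt) (hPRI : PRI_stmt) (hEMB : EMB_stmt) (hCEN : CEN_stmt)
    (hINH : INH_stmt) (hINK : INK_stmt) (hREC : REC_stmt) (hFIN : FIN_stmt) : CLN_stmt := by
  intro k v₀ hk hsq hv K _ _ hfin ⟨s, hs⟩
  obtain ⟨φ, hφs, hφ⟩ := hEMB K s k (pq v₀) hfin hk hs (CLN_ww hv)
  have hint : ∀ β : K, φ β ∈ Hz ↔ IsIntegral ℤ β := by
    intro β
    obtain ⟨a, b, hβ, hφβ⟩ := hφ β
    rw [hφβ, hINH k v₀ a b hsq hv, hβ, hINK K s k a b hk hs]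
  have hw0 : pq v₀ ≠ 0 := by
    intro h
    have h1 := CLN_ww hv
    rw [h, zero_mul] at h1
    have h2 : (k : ℍ[ℚ]) = 0 := by rw [← neg_neg (k : ℍ[ℚ]), ← h1, neg_zero]
    have h3 : ((k : ℕ) : ℚ) = 0 := by
      have h4 := congrArg (fun q : ℍ[ℚ] => q.re) h2
      simpa using h4
    have h5 : k = 0 := by exact_mod_cast h3
    omega
  -- choice
  have hch : ∀ c : ClassGroup (NumberField.RingOfIntegers K),
      ∃ I : nonZeroDivisors (Ideal (NumberField.RingOfIntegers K)), ClassGroup.mk0 I = c :=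
    ClassGroup.mk0_surjective
  choose I hI using hch
  have hI0 : ∀ c, (I c : Ideal (NumberField.RingOfIntegers K)) ≠ ⊥ := fun c =>
    nonZeroDivisors.coe_ne_zero (I c)
  choose x hx hx0 hgen v hvk hxv using fun c =>
    CLN_gen (I := (I c : Ideal (NumberField.RingOfIntegers K))) hHUR hPRI hint (hI0 c) hv hφs
  have hinj : Function.Injective (fun c : ClassGroup (NumberField.RingOfIntegers K) =>
      (⟨v c, hvk c⟩ : {v : Fin 3 → ℤ // ∑ i, v i ^ 2 = (k : ℤ)})) := by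
    intro c c' hcc
    have hvv : v c = v c' := congrArg Subtype.val hcc
    have h1 : x c * pq v₀ * (x c)⁻¹ = x c' * pq v₀ * (x c')⁻¹ := by
      rw [hxv, hxv, hvv]
    have h2 : ((x c')⁻¹ * x c) * pq v₀ = pq v₀ * ((x c')⁻¹ * x c) := by
      have h3 : (x c')⁻¹ * (x c * pq v₀ * (x c)⁻¹) * x c =
          (x c')⁻¹ * (x c' * pq v₀ * (x c')⁻¹) * x c := by rw [h1]
      have h4 : (x c')⁻¹ * (x c * pq v₀ * (x c)⁻¹) * x c = ((x c')⁻¹ * x c) * pq v₀ := by
        simp only [mul_assoc]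
        rw [inv_mul_cancel₀ (hx0 c), mul_one]
      have h5 : (x c')⁻¹ * (x c' * pq v₀ * (x c')⁻¹) * x c = pq v₀ * ((x c')⁻¹ * x c) := by
        simp only [← mul_assoc]
        rw [inv_mul_cancel₀ (hx0 c'), one_mul]
      rw [← h4, h3, h5]
    obtain ⟨a, b, hab⟩ := hCEN (pq v₀) ((x c')⁻¹ * x c) rfl hw0 h2
    rw [← hφs, ← CLN_phi φ s a b] at hab
    set α : K := algebraMap ℚ K a + algebraMap ℚ K b * s with hα
    have hα0 : α ≠ 0 := by
      intro h0
      rw [h0, map_zero] at hab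
      exact mul_ne_zero (inv_ne_zero (hx0 c')) (hx0 c) hab
    obtain ⟨p, q, hq, hpq⟩ := IsFractionRing.div_surjective (A := NumberField.RingOfIntegers K) α
    have hq0 : q ≠ 0 := nonZeroDivisors.ne_zero hq
    have hp0 : p ≠ 0 := by
      rintro rfl
      apply hα0
      rw [← hpq, map_zero, zero_div]
    have hqK : (q : K) ≠ 0 := by exact_mod_cast hq0
    have hpα : (p : K) = α * (q : K) := by
      rw [← hpq]
      exact (div_mul_cancel₀ _ hqK).symm
    have h6 : x c * φ (q : K) = x c' * φ (p : K) := by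
      have h7 : x c = x c' * φ α := by
        rw [← hab, ← mul_assoc, mul_inv_cancel₀ (hx0 c'), one_mul]
      rw [h7, mul_assoc, ← map_mul, hpα]
    have hMI : MI φ (Ideal.span {q} * (I c : Ideal (NumberField.RingOfIntegers K))) =
        MI φ (Ideal.span {p} * (I c' : Ideal (NumberField.RingOfIntegers K))) := by
      ext z
      rw [CLN_span hHUR (hx c) (hgen c) q z, CLN_span hHUR (hx c') (hgen c') p z, h6]
    have hne : ∀ (r : NumberField.RingOfIntegers K) (c : ClassGroup (NumberField.RingOfIntegers K)),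
        r ≠ 0 → Ideal.span {r} * (I c : Ideal (NumberField.RingOfIntegers K)) ≠ ⊥ := by
      intro r c hr
      refine mul_ne_zero ?_ (hI0 c)
      rw [Ideal.zero_eq_bot, Ne, Ideal.span_singleton_eq_bot]
      exact hr
    have heq : Ideal.span {q} * (I c : Ideal (NumberField.RingOfIntegers K)) =
        Ideal.span {p} * (I c' : Ideal (NumberField.RingOfIntegers K)) :=
      le_antisymm (hREC K φ hint _ _ (hne p c' hp0) hMI) (hREC K φ hint _ _ (hne q c hq0) hMI.symm)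
    have hmk : ClassGroup.mk0 (I c) = ClassGroup.mk0 (I c') :=
      ClassGroup.mk0_eq_mk0_iff.mpr ⟨q, p, hq0, hp0, heq⟩
    rw [← hI c, ← hI c', hmk]
  have := hFIN.1 k
  have hcard := Nat.card_le_card_of_injective _ hinj
  rw [Nat.card_eq_fintype_card] at hcard
  exact hcard

end Pool.Agent.helper21.UB

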