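import Mathlib

/-!
# MP_6cfeb2_co: unit distances in dense sets of lattice points, sums of three squares, class numbers: definitions
-/

set_option autoImplicit false

namespace Pool.Agent.helper21.UB

/-- The number of integer vectors `(x, y, z)` with `x² + y² + z² = k`. -/
noncomputable def r3 (k : ℕ) : ℕ := Nat.card {v : Fin 3 → ℤ // ∑ i, v i ^ 2 = (k : ℤ)}

/-- **Q1**: the conjectured upper bound for the number of unit distances in three-space (ordered pairs). -/
def Q1 : Prop :=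
  ∃ C : ℝ, ∃ N : ℕ, ∀ n : ℕ, N ≤ n →
    ∀ S : Finset (EuclideanSpace ℝ (Fin 3)), S.card = n →
      (((S ×ˢ S).filter (fun p => dist p.1 p.2 = 1)).card : ℝ)
        ≤ C * (n : ℝ) ^ ((4 : ℝ) / 3) * Real.log (Real.log (n : ℝ))

/-- **Q1 for dense sets of lattice points**: for every `K` there is `C` such that every large finite set `S` of points of
`ℤ³`, contained in a cube of side `L` with `L³ ≤ K |S|`, has at most `C |S|^(4/3) log log |S|` ordered pairs at
distance `√k`, for every `k`. -/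
def DenseQ1 : Prop :=
  ∀ K : ℝ, ∃ C : ℝ, ∃ N : ℕ, ∀ (S : Finset (Fin 3 → ℤ)) (b : Fin 3 → ℤ) (L k : ℕ),
    (∀ x ∈ S, ∀ i, b i ≤ x i ∧ x i < b i + L) → (L : ℝ) ^ 3 ≤ K * S.card → N ≤ S.card →
    (((S ×ˢ S).filter (fun p => ∑ i, (p.1 i - p.2 i) ^ 2 = (k : ℤ))).card : ℝ)
      ≤ C * (S.card : ℝ) ^ ((4 : ℝ) / 3) * Real.log (Real.log (S.card : ℝ))

/-- The number of representations as a sum of three squares is `O(√k log log k)`. -/
def R3Bound : Prop :=
  ∃ C : ℝ, ∀ k : ℕ, 3 ≤ k → (r3 k : ℝ) ≤ C * Real.sqrt k * Real.log (Real.log k)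

/-- The class number of `ℚ(√-k)` is `O(√k log log k)`, for squarefree `k` which are sums of three squares
(`k` not congruent to `7` modulo `8`). -/
def ClassBound : Prop :=
  ∃ C : ℝ, ∀ k : ℕ, 3 ≤ k → Squarefree k → (∃ x y z : ℤ, x ^ 2 + y ^ 2 + z ^ 2 = k) →
    ∀ (K : Type) [Field K] [NumberField K], Module.finrank ℚ K = 2 → (∃ s : K, s ^ 2 = -(k : K)) →
      (NumberField.classNumber K : ℝ) ≤ C * Real.sqrt k * Real.log (Real.log k)

end Pool.Agent.helper21.UB
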