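import Pool.Agent.helper21.UB.Defs

/-!
# Project ub: (MP_6cfeb2_co): Q1 for dense sets of lattice points, sums of three squares, class numbers

THEOREM. `Q1 → DenseQ1`, `DenseQ1 ↔ R3Bound`, `R3Bound → ClassBound` (Defs.lean).

Module `XX` proves `theorem XX (hYY : YY_stmt) … : XX_stmt` in `Pool/Agent/<seat>/UB/XX.lean`, with
`import Pool.Agent.helper21.UB.Spec`, `set_option autoImplicit false`, `namespace Pool.Agent.helper21.UB`. Hypotheses: the
statements listed under `uses`. Auxiliary lemmas prefixed `XX_`. No `sorry`, no double quotes, no `#` commands in the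
landed file.

Quaternions: `Quaternion ℚ` (notation `ℍ[ℚ]` after `open Quaternion`), structure with fields `re, imI, imJ, imK`,
`Quaternion.ext`, `Quaternion.normSq`, `star`. `Hz` is the Hurwitz order.
-/

set_option autoImplicit false

open Quaternion

namespace Pool.Agent.helper21.UB

/-- The Hurwitz order: all four coordinates are integers or all four are half-odd. -/
def Hz : Set ℍ[ℚ] := {x |
  (∃ a b c d : ℤ, x.re = a ∧ x.imI = b ∧ x.imJ = c ∧ x.imK = d) ∨
  (∃ a b c d : ℤ, x.re = a + 1 / 2 ∧ x.imI = b + 1 / 2 ∧ x.imJ = c + 1 / 2 ∧ x.imK = d + 1 / 2)}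

/-- The pure quaternion with integer coordinates `v`. -/
def pq (v : Fin 3 → ℤ) : ℍ[ℚ] := ⟨0, v 0, v 1, v 2⟩

/-! ## Part 1: the Hurwitz order -/

/-- **HUR** (medium). `Hz` is a subring stable under conjugation, with integral norms, and its pure elements have integer coordinates.
Proof. Everything is immediate except the product of two half-odd elements and of an integral and a half-odd one. Write a
half-odd element as `n + ω` with integer coordinates `n` and `ω = (1+i+j+k)/2`: it is enough to treat `n m`, `ω m`, `n ω`, `ω ω = ω - 1`; the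
coordinates of `m ω` are `(m₀-m₁-m₂-m₃)/2, (m₀+m₁+m₂-m₃)/2` and so on up to signs, so they are all integers or all half-odd according to the
parity of `m₀+m₁+m₂+m₃`. Norm of a half-odd element: `∑ (a+1/2)² = ∑ (a²+a) + 1`. Last claim: `re = 0` excludes the second
alternative. -/
def HUR_stmt : Prop :=
  (0 : ℍ[ℚ]) ∈ Hz ∧ (1 : ℍ[ℚ]) ∈ Hz ∧ (∀ x ∈ Hz, ∀ y ∈ Hz, x + y ∈ Hz) ∧ (∀ x ∈ Hz, -x ∈ Hz) ∧
  (∀ x ∈ Hz, ∀ y ∈ Hz, x * y ∈ Hz) ∧ (∀ x ∈ Hz, ∃ n : ℕ, normSq x = n) ∧
  (∀ x ∈ Hz, x.re = 0 → ∃ v : Fin 3 → ℤ, x = pq v)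

/-- **EUC** (medium). Euclidean. uses: nothing.
Proof. Let `a, b, c, d` be the nearest integers (`round`) to the coordinates, all differences are at most `1/2` in absolute value, so
the norm of the difference is `≤ 1`, and `< 1` unless all four differences are exactly `±1/2`; in this case all four
coordinates of `x` are half-odd, so `x ∈ Hz`, take `q = x`. -/
def EUC_stmt : Prop := ∀ x : ℍ[ℚ], ∃ q ∈ Hz, normSq (x - q) < 1

/-- **PRI** (medium). Left ideals are principal. uses: HUR, EUC.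
Proof. Among the nonzero elements of `M` take `x` of least norm (`normSq` is a natural number on `M ⊆ Hz`, HUR). `x ∈ M` so
`o * x ∈ M`. Conversely for `y ∈ M` let `q ∈ Hz` with `normSq (y * x⁻¹ - q) < 1`; `y - q * x = (y * x⁻¹ - q) * x ∈ M` has norm less than that of
`x`, so it is `0`. -/
def PRI_stmt : Prop := ∀ M : AddSubgroup ℍ[ℚ], (∀ m ∈ M, m ∈ Hz) → (∀ o ∈ Hz, ∀ m ∈ M, o * m ∈ M) →
  (∃ m ∈ M, m ≠ 0) → ∃ x ∈ M, x ≠ 0 ∧ ∀ y ∈ M, ∃ o ∈ Hz, y = o * x

/-! ## Part 2: the embedding of `ℚ(√-k)` -/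

/-- **EMB** (medium). uses: nothing.
Proof. `s` is not rational (`s² = -k < 0`: the image of a rational number has a nonnegative square, `K` has characteristic 0; if
`s = algebraMap r` then `r² = -k`), so `1, s` is a `ℚ`-basis of `K` (two linearly independent vectors, dimension 2:
`basisOfLinearIndependentOfCardEqFinrank` or `LinearIndependent.span_eq_top_of_card_eq_finrank`): every `β` is `a + b s` with unique rational
`a, b`. Define `φ (a + b s) = a + b w`: additive and multiplicative because `w w = -k`. -/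
def EMB_stmt : Prop := ∀ (K : Type) [Field K] [NumberField K] (s : K) (k : ℕ) (w : ℍ[ℚ]), Module.finrank ℚ K = 2 →
  1 ≤ k → s ^ 2 = -(k : K) → w * w = -(k : ℍ[ℚ]) →
  ∃ φ : K →+* ℍ[ℚ], φ s = w ∧ ∀ β : K, ∃ a b : ℚ, β = algebraMap ℚ K a + algebraMap ℚ K b * s ∧
    φ β = (a : ℍ[ℚ]) + (b : ℍ[ℚ]) * w

/-- **CEN** (short). The centralizer of a pure quaternion. uses: nothing.
Proof. Comparing the coordinates of `x w = w x` (`w.re = 0`): the cross product of the vector parts of `x` and `w` is `0` (the coordinates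
of `x w - w x` are twice those of the cross product). Some coordinate of `w` is not `0`; divide. -/
def CEN_stmt : Prop := ∀ w x : ℍ[ℚ], w.re = 0 → w ≠ 0 → x * w = w * x →
  ∃ a b : ℚ, x = (a : ℍ[ℚ]) + (b : ℍ[ℚ]) * w

/-- **INH** (medium). Elements of `ℚ + ℚ w` in the Hurwitz order, `w = pq v`, `|v|² = k` squarefree. uses: nothing.
Proof. (→) `re = a` has `2 a ∈ ℤ`, the norm `a² + k b²` is an integer (`∑ (m+1/2)² = ∑ (m²+m) + 1`). (←) Let `A = 2a`, `B = 2b`: `A ∈ ℤ`, `A² + k B² = 4n`,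
so `k B² ∈ ℤ` and `B ∈ ℤ` as `k` is squarefree (if a prime `p` divides the denominator of `B` then `p² ∣ k`). If `B` is even then
`A² ≡ 0 mod 4`, `A` is even: integer coordinates. If `B` is odd: `A² + k ≡ 0 mod 4` and `4 ∤ k` (squarefree), so `A` is odd and `k ≡ 3 mod 4`, so
(squares are `0, 1 mod 4`) `v 0, v 1, v 2` are all odd, and `A/2, B v_i/2` are all half-odd. -/
def INH_stmt : Prop := ∀ (k : ℕ) (v : Fin 3 → ℤ) (a b : ℚ), Squarefree k → ∑ i, v i ^ 2 = (k : ℤ) →
  ((a : ℍ[ℚ]) + (b : ℍ[ℚ]) * pq v ∈ Hz ↔ ∃ t n : ℤ, 2 * a = t ∧ a ^ 2 + k * b ^ 2 = n)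

/-- **INK** (medium). The integral elements of `K`. uses: nothing.
Proof. (←) `β = a + b s` is a root of the monic integral polynomial `X² - t X + n`. (→) If `b = 0` then `a` is an integral rational number, so an integer
(`IsIntegrallyClosed.isIntegral_iff`/`IsInteger_of_is_root_of_monic`), done. If `b ≠ 0`, the minimal polynomial of `β` over `ℚ` is
`X² - 2a X + (a² + k b²)` (`β` is not rational, as `s` is not: `s² = -k < 0`) and it has integer coefficients
(`minpoly.isIntegrallyClosed_eq_field_fractions'`). Alternative: the trace and norm of `β` (`Algebra.isIntegral_trace`, `Algebra.isIntegral_norm`). -/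
def INK_stmt : Prop := ∀ (K : Type) [Field K] [NumberField K] (s : K) (k : ℕ) (a b : ℚ), 1 ≤ k → s ^ 2 = -(k : K) →
  (IsIntegral ℤ (algebraMap ℚ K a + algebraMap ℚ K b * s) ↔ ∃ t n : ℤ, 2 * a = t ∧ a ^ 2 + k * b ^ 2 = n)

/-- The left ideal of the Hurwitz order generated by the image of the ideal `A`. -/
def MI {K : Type} [Field K] [NumberField K] (φ : K →+* ℍ[ℚ]) (A : Ideal (NumberField.RingOfIntegers K)) :
    AddSubgroup ℍ[ℚ] :=
  AddSubgroup.closure {x | ∃ o ∈ Hz, ∃ a ∈ A, x = o * φ (a : K)}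

/-- **REC** (medium). The ideal is recovered from the left ideal. uses: HUR.
Proof. Let `β ∈ A`. `B ≠ ⊥`: take `c ∈ B`, `c ≠ 0`; `Ideal.span {c} = B * B'` (`Ideal.dvd_span_singleton`), `B' ≠ ⊥`. `φ β ∈ MI A = MI B` (`1 ∈ Hz`). Let `b' ∈ B'`:
every element `y` of `MI B` satisfies `y * φ b' ∈ {o * φ c : o ∈ Hz}` (closure induction: `o * φ b * φ b' = o * φ (b b')`, `b b' ∈ span {c}`, `b b' = c r`,
`φ r ∈ Hz`, `K` is commutative). So `φ (β b') = o * φ c`, `φ (β b' / c) = o ∈ Hz`, hence `β b'/c` is integral, `β b' ∈ span {c} = B * B'`. So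
`span {β} * B' ≤ B * B'`, and `β ∈ B` by cancellation (`Ideal.dvd_iff_le`, `mul_dvd_mul_iff_right`). -/
def REC_stmt : Prop := ∀ (K : Type) [Field K] [NumberField K] (φ : K →+* ℍ[ℚ]),
  (∀ β : K, φ β ∈ Hz ↔ IsIntegral ℤ β) → ∀ A B : Ideal (NumberField.RingOfIntegers K), B ≠ ⊥ →
    MI φ A = MI φ B → A ≤ B

/-- **CLN** (LONG). The class number is at most the number of representations. uses: HUR, PRI, EMB, CEN, INH, INK, REC, FIN.
Proof. `w = pq v₀`, `w w = -k`; `φ` from EMB; by INH and INK `φ β ∈ Hz ↔ IsIntegral ℤ β`. For every class choose an ideal `I ≠ ⊥` (`ClassGroup.mk0_surjective`).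
`MI φ I` is contained in `Hz`, stable under left multiplication, not `0`; PRI: `MI φ I = Hz * x_I`. `u_I = x_I * w * x_I⁻¹` is in `Hz`: `MI φ I` is
stable under right multiplication by `w = φ s`, (`s` integral, `I s ⊆ I`), so `x_I * w = o * x_I`. `u_I.re = 0` and `normSq u_I = k`
(conjugate of `w`: `(x w x⁻¹).re = w.re`, multiplicativity of the norm), so `u_I = pq v_I` with `∑ v_I i ^ 2 = k` (HUR). Injectivity: if `v_I = v_J` then
`y = x_J⁻¹ * x_I` commutes with `w`, `y = a + b w = φ α`, `α = a + b s ≠ 0` (CEN), `α = p/q` with `p, q ≠ 0` in the ring of integers. So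
`x_I * φ q = x_J * φ p`, `MI φ (span {q} * I) = Hz x_I φ q = Hz x_J φ p = MI φ (span {p} * J)` and by REC (both inclusions)
`span {q} * I = span {p} * J`: the classes agree (`ClassGroup.mk0_eq_mk0_iff`). The set of representations is finite (`|v i| ≤ k`), so
`Fintype.card (ClassGroup _) ≤ Nat.card {v // ..}` (`Nat.card_le_card_of_injective`, `NumberField.classNumber` is the Fintype.card). -/
def CLN_stmt : Prop := ∀ (k : ℕ) (v₀ : Fin 3 → ℤ), 1 ≤ k → Squarefree k → ∑ i, v₀ i ^ 2 = (k : ℤ) →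
  ∀ (K : Type) [Field K] [NumberField K], Module.finrank ℚ K = 2 → (∃ s : K, s ^ 2 = -(k : K)) →
    NumberField.classNumber K ≤ r3 k

/-! ## Part 3: dense sets of lattice points -/

/-- **FIN** (short). uses: nothing. Finiteness and trivial bound of the number of representations: `|v i| ≤ k` (even `v i ^ 2 ≤ k`); `r3 k` is the number of vectors of the finite set. -/
def FIN_stmt : Prop := (∀ k : ℕ, Finite {v : Fin 3 → ℤ // ∑ i, v i ^ 2 = (k : ℤ)}) ∧
  ∀ k : ℕ, r3 k ≤ (2 * k + 1) ^ 3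

/-- **DQ** (medium). uses: nothing.
Proof. `C, N` from Q1; take `C' = max C 1` and `N' = max N 16` (`log log n > 0`; even `≥ 1` for `n ≥ 16`). `k = 0`: the pairs are the `(x, x)`: `|S| ≤ |S|^(4/3) log log |S|`. `k ≥ 1`: the map
`x ↦ x / √k` to `EuclideanSpace ℝ (Fin 3)` is injective and maps the pairs with `∑ (x i - y i)² = k` bijectively to the pairs
at distance `1` of the image (`EuclideanSpace.dist_eq`). -/
def DQ_stmt : Prop := Q1 → DenseQ1

/-- **PAI** (medium). uses: FIN. The full cube. `m ≥ 1`, `k ≤ m²`: at least `m³ r3 k` pairs.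
Proof. `S` = the vectors with coordinates in `[0, 3m)`, `|S| = 27 m³`. For `x` with coordinates in `[m, 2m)` and `v` with `∑ v i ^ 2 = k` we have `|v i| ≤ m`,
so `x + v ∈ S`; `(x, v) ↦ (x, x + v)` is injective (or `(x + v, x)`). -/
def PAI_stmt : Prop := ∀ m k : ℕ, 1 ≤ m → k ≤ m ^ 2 → ∃ S : Finset (Fin 3 → ℤ), S.card = 27 * m ^ 3 ∧
  (∀ x ∈ S, ∀ i, 0 ≤ x i ∧ x i < 3 * m) ∧
  m ^ 3 * r3 k ≤ ((S ×ˢ S).filter (fun p => ∑ i, (p.1 i - p.2 i) ^ 2 = (k : ℤ))).card

/-- **DR** (medium, real numbers). uses: FIN, PAI.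
Proof. DenseQ1 with `K = 1` (`L = 3m`, `L³ = |S|`), `b = 0`: `C, N`, w.l.o.g. `C ≥ 1`. Let `k ≥ 3`, `m = ⌈√k⌉` (or `Nat.sqrt k + 1`), `√k ≤ m ≤ 2√k`. If `27 m³ ≥ N`: `m³ r3 k ≤ C (27 m³)^(4/3) log log (27 m³) = 81 C m⁴ log log (27 m³)`, so
`r3 k ≤ 162 C √k log log (216 k^(3/2))`, and `log log (216 k^(3/2)) ≤ C' log log k` for `k ≥ 3` (`216 k^(3/2) ≤ k^7`, `log log k^7 = log 7 + log log k ≤ C' log log k`, `log log 3 > 0`). Otherwise
`m < N`, `k < N²`, and `r3 k ≤ (2N²+1)³ ≤ C'' √k log log k`. -/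
def DR_stmt : Prop := DenseQ1 → R3Bound

/-- **RD** (medium, real numbers). uses: FIN.
Proof. `C` from R3Bound, w.l.o.g. `C ≥ 1`. Given `K`, w.l.o.g. `K ≥ 1`. `n = |S|` large. Every `x ∈ S` has at most `r3 k` partners `y` (`y = x - v`), so the number of pairs is at most
`n r3 k`; it is `0` unless `k ≤ 3 L²` (`|x i - y i| ≤ L`). If `k < 3`: `r3 k ≤ 125`. If `k ≥ 3`: `r3 k ≤ C √k log log k ≤ C √3 L log log (3L²)`, `L ≤ (K n)^(1/3)`,
`3 L² ≤ 3 (K n)^(2/3) ≤ n²` for large `n`, `log log n² = log 2 + log log n ≤ 2 log log n`. So the number is at most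
`2 √3 C K^(1/3) n^(4/3) log log n`. -/
def RD_stmt : Prop := R3Bound → DenseQ1

/-- **RC** (short). uses: CLN. -/
def RC_stmt : Prop := R3Bound → ClassBound

end Pool.Agent.helper21.UB
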